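import Mathlib
import Pool.Agent.H258.CR.Inst

/-!
# Residually finite groups with property (T) and the same group algebra: the pieces

`V3 R = R³`, `Lam R = EL_3(R)` with elementary matrices `ee h r`, `XX`, `Quad`, `gg`, `up p`,
`Mp p`, `Gp p hp = Mp p ⋊ Lam R` are those of `Pool.Agent.H258.CR` and `Pool.Agent.H197R3`.
-/

set_option autoImplicit false
set_option linter.unusedSectionVars false

namespace Pool.Agent.H193.RF

open Pool.Agent.H197R3 (XX Quad gg GG Inv' phi pb vv)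
open Pool.Agent.H258.CR
open Pool.Agent.Y276.Rig (IsIcc)
open SemidirectProduct Polynomial

/-- residually finite: every nontrivial element is outside some subgroup of finite index -/
def ResFin (G : Type) [Group G] : Prop :=
  ∀ x : G, x ≠ 1 → ∃ H : Subgroup G, H.index ≠ 0 ∧ x ∉ H

/-- subgroups of finite index of `EL_3(R)` contain the elementary matrices with entries in an ideal
of finite index -/
def S_A : Prop := ∀ (R : Type) [CommRing R] (L : Subgroup (Lam R)), L.index ≠ 0 →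
  ∃ J : Ideal R, Finite (R ⧸ J) ∧ ∀ (i j : Fin 3) (h : i ≠ j) (r : R), r ∈ J → ee h r ∈ L

/-- a matrix of `EL_3(R)` which commutes with elementary matrices `ee h r`, for one `r ≠ 0`,
is trivial -/
def S_B : Prop := ∀ (R : Type) [CommRing R] [IsDomain R], (∀ u : R, u ^ 3 = 1 → u = 1) →
  ∀ (r : R), r ≠ 0 → ∀ x : Lam R, (∀ (i j : Fin 3) (h : i ≠ j), x * ee h r = ee h r * x) → x = 1

/-- an abelian subgroup normalised by the elementary matrices with entries in a nonzero ideal is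
trivial -/
def S_C : Prop := ∀ (R : Type) [CommRing R] [IsDomain R] [Infinite R], (∀ r : R, r + r = 0) →
  (∀ u : R, u ^ 3 = 1 → u = 1) → ∀ (J : Ideal R), Finite (R ⧸ J) → ∀ K : Subgroup (Lam R),
  (∀ (i j : Fin 3) (h : i ≠ j) (r : R), r ∈ J → ∀ x ∈ K, ee h r * x * (ee h r)⁻¹ ∈ K) →
  (∀ x ∈ K, ∀ y ∈ K, x * y = y * x) → ∀ x ∈ K, x = 1

/-- the second difference of a function on `X` along `u`, `u'` vanishes at the points `(0, Q)` -/
def SD {R : Type} [Ring R] (u u' : Lam R) (w : XX (V3 R) → Circle) : Prop :=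
  ∀ Q : Quad (V3 R), w (pb (u * u') (0, Q)) * w (0, Q) = w (pb u (0, Q)) * w (pb u' (0, Q))

/-- an element of `Mp p` whose second differences along all `(1 + r E_ij, 1 + s E_kl)` with
`E_ij E_kl = 0`, `i ≠ k`, vanish (for some nonzero `r`, `s` depending on `i, j, k, l`) is trivial at
the points `(0, Q)` -/
def S_D1 : Prop := ∀ (R : Type) [CommRing R] [IsDomain R], (∀ r : R, r + r = 0) →
  ∀ (p : V3 R →+ V3 R) (w : XX (V3 R) → Circle), w ∈ Mp p →
  (∀ (i j k l : Fin 3) (hij : i ≠ j) (hkl : k ≠ l), j ≠ k → i ≠ k →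
    ∃ r s : R, r ≠ 0 ∧ s ≠ 0 ∧ SD (ee hij r) (ee hkl s) w) →
  ∀ Q : Quad (V3 R), w (0, Q) = 1

/-- an element of `Mp p` which is trivial at the points `(0, Q)` is of the form `gg b` -/
def S_D2 : Prop := ∀ (A : Type) [AddCommGroup A], (∀ a : A, 2 • a = 0) →
  ∀ (p : A →+ A) (w : XX A → Circle), w ∈ Mp p → (∀ Q : Quad A, w (0, Q) = 1) → ∃ b, w = gg b

/-- residual finiteness of the elementary group -/
def S_F1 : Prop := ∀ (k : Type) [Field k] [Finite k], ResFin (Lam (k[X][X]))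

/-- residual finiteness of the abelian part -/
def S_F2 : Prop := ∀ (k : Type) [Field k] [Finite k], (∀ r : k, r + r = 0) →
  ∀ (p : V3 (k[X][X]) →+ V3 (k[X][X]))
    (hp : ∀ (g : Lam (k[X][X])) (a : V3 (k[X][X])), p (g • a) = g • p a) (w : Mp p), w ≠ 1 →
    ∃ H : Subgroup (Gp p hp), H.index ≠ 0 ∧ (inl w : Gp p hp) ∉ H

/-- ideals of finite index in `k[X][Y]` -/
def S_G0 : Prop := ∀ (k : Type) [Field k] [Finite k] (K : Ideal (k[X][X])),
  Finite ((k[X][X]) ⧸ K) → ∀ (g : k[X][X]) (t : ℕ), ¬ (X : k[X][X]) ∣ g →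
  Finite ((k[X][X]) ⧸ (K * (Ideal.span {g} ⊔ Ideal.span {(X : k[X][X]) ^ t})))

/-- the chain lemma: invariant subgroups of `R³`, `R = k[X][Y]`, between `Y^m R³` and `Y^i R³` (up
to finite index) which are not contained in `Y^(i+1) R³` have finite index in `Y^i R³` -/
def S_G : Prop := ∀ (k : Type) [Field k] [Finite k] (J : Ideal (k[X][X])),
  Finite ((k[X][X]) ⧸ J) → ∀ (D B : AddSubgroup (V3 (k[X][X]))) (i m : ℕ), i ≤ m →
  B.index ≠ 0 →
  (∀ (a b : Fin 3) (h : a ≠ b) (r : k[X][X]), r ∈ J → ∀ d ∈ D, (ee h r : Lam (k[X][X])) • d ∈ D) →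
  (∀ d ∈ D, ∃ c : V3 (k[X][X]), d = (X : k[X][X]) ^ i • c) →
  (¬ ∀ d ∈ D, ∃ c : V3 (k[X][X]), d = (X : k[X][X]) ^ (i + 1) • c) →
  (∀ b ∈ B, (X : k[X][X]) ^ m • b ∈ D) →
  ∃ B' : AddSubgroup (V3 (k[X][X])), B'.index ≠ 0 ∧ ∀ b ∈ B', (X : k[X][X]) ^ i • b ∈ D

end Pool.Agent.H193.RF
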