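import Mathlib
import Pool.Agent.H193.RF.Stm

/-!
# The groups `Mp p ⋊ EL_3(R)` over a domain are ICC
-/

set_option autoImplicit false
set_option linter.unusedSectionVars false

namespace Pool.Agent.H193.RF

open Pool.Agent.H197R3 (XX Quad gg GG Inv' phi pb pb_mul vv gg_injective)
open Pool.Agent.H258.CR
open Pool.Agent.Y276.Rig (IsIcc)
open SemidirectProduct

variable {R : Type} [CommRing R]

/-- an ideal of finite index in an infinite ring contains a nonzero element -/
lemma exists_ne_of_finite [Infinite R] (J : Ideal R) (hJ : Finite (R ⧸ J)) :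
    ∃ r ∈ J, r ≠ 0 := by
  obtain ⟨a, b, hab, h⟩ := Finite.exists_ne_map_eq_of_infinite (fun x : R => (Ideal.Quotient.mk J x))
  exact ⟨a - b, Ideal.Quotient.eq.1 h, sub_ne_zero.2 hab⟩

/-- the stabiliser of a vector of functions has finite index if the orbit is finite -/
lemma icc_Lam (hA : S_A) (hB : S_B) [IsDomain R] [Infinite R]
    (hu : ∀ u : R, u ^ 3 = 1 → u = 1) (x : Lam R)
    (hx : {y | ∃ g, y = g * x * g⁻¹}.Finite) : x = 1 := by
  have hfin : Finite {y | ∃ g, y = g * x * g⁻¹} := hx
  have hind : (Subgroup.centralizer {x} : Subgroup (Lam R)).index ≠ 0 := by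
    have hf : Finite (Lam R ⧸ (Subgroup.centralizer {x} : Subgroup (Lam R))) := by
      refine Finite.of_injective
        (fun q : Lam R ⧸ (Subgroup.centralizer {x} : Subgroup (Lam R)) =>
          (⟨q.out * x * q.out⁻¹, ⟨_, rfl⟩⟩ : {y | ∃ g, y = g * x * g⁻¹})) ?_
      intro q r hqr
      have h1 : q.out * x * q.out⁻¹ = r.out * x * r.out⁻¹ := congrArg Subtype.val hqr
      rw [← QuotientGroup.out_eq' q, ← QuotientGroup.out_eq' r, QuotientGroup.eq,
        Subgroup.mem_centralizer_singleton_iff]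
      calc (q.out⁻¹ * r.out) * x = q.out⁻¹ * (r.out * x * r.out⁻¹) * r.out := by group
        _ = q.out⁻¹ * (q.out * x * q.out⁻¹) * r.out := by rw [h1]
        _ = x * (q.out⁻¹ * r.out) := by group
    exact Subgroup.index_ne_zero_of_finite
  obtain ⟨J, hJ, hJL⟩ := hA R _ hind
  obtain ⟨r, hr, hr0⟩ := exists_ne_of_finite J hJ
  refine hB R hu r hr0 x fun i j h => ?_
  have := hJL i j h r hr
  rw [Subgroup.mem_centralizer_singleton_iff] at this
  exact this.symm

theorem icc_Gp (hA : S_A) (hB : S_B) (hD1 : S_D1) (hD2 : S_D2) [IsDomain R] [Infinite R]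
    (h2R : ∀ r : R, r + r = 0) (hu : ∀ u : R, u ^ 3 = 1 → u = 1) (p : V3 R →+ V3 R)
    (hp : ∀ (g : Lam R) (a : V3 R), p (g • a) = g • p a) : IsIcc (Gp p hp) := by
  intro x hxne hfin
  apply hxne
  have h1 : x.right = 1 := by
    apply icc_Lam hA hB hu
    refine (hfin.image (rightHom : Gp p hp →* Lam R)).subset ?_
    rintro _ ⟨g, rfl⟩
    refine ⟨inr g * x * (inr g)⁻¹, ⟨inr g, rfl⟩, ?_⟩
    rw [map_mul, map_mul, map_inv, rightHom_inr]; rfl
  have h2 : x = inl x.left := by
    conv_lhs => rw [← inl_left_mul_inr_right x]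
    rw [h1, map_one, mul_one]
  set w := x.left with hw
  -- the stabiliser of `w`
  let L : Subgroup (Lam R) :=
    { carrier := {g | phi (Mp p) (inv_Mp p hp) g w = w}
      one_mem' := by
        show phi (Mp p) (inv_Mp p hp) 1 w = w
        rw [map_one]; rfl
      mul_mem' := by
        intro a b ha hb
        show phi (Mp p) (inv_Mp p hp) (a * b) w = w
        rw [map_mul, MulAut.mul_apply, show phi (Mp p) (inv_Mp p hp) b w = w from hb]
        exact ha
      inv_mem' := by
        intro a ha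
        show phi (Mp p) (inv_Mp p hp) a⁻¹ w = w
        have ha' : phi (Mp p) (inv_Mp p hp) a w = w := ha
        conv_lhs => rw [← ha']
        rw [← MulAut.mul_apply, ← map_mul, inv_mul_cancel, map_one]; rfl }
  have hL : L.index ≠ 0 := by
    have hf2 : Finite {y : Gp p hp | ∃ g, y = g * x * g⁻¹} := hfin
    have hf : Finite (Lam R ⧸ L) := by
      refine Finite.of_injective
        (fun q : Lam R ⧸ L =>
          (⟨inr q.out * x * (inr q.out)⁻¹, ⟨_, rfl⟩⟩ : {y : Gp p hp | ∃ g, y = g * x * g⁻¹})) ?_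
      intro q r hqr
      have h3 : (inr q.out * x * (inr q.out)⁻¹ : Gp p hp) = inr r.out * x * (inr r.out)⁻¹ :=
        congrArg Subtype.val hqr
      have h4 : ∀ g : Lam R, (inr g * x * (inr g)⁻¹ : Gp p hp) =
          inl (phi (Mp p) (inv_Mp p hp) g w) := by
        intro g
        rw [h2, ← map_inv, ← inl_aut]
      rw [h4, h4] at h3
      have h5 := inl_injective h3
      rw [← QuotientGroup.out_eq' q, ← QuotientGroup.out_eq' r, QuotientGroup.eq]
      show phi (Mp p) (inv_Mp p hp) (q.out⁻¹ * r.out) w = w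
      rw [map_mul, MulAut.mul_apply, ← h5, ← MulAut.mul_apply, ← map_mul, inv_mul_cancel, map_one]
      rfl
    exact Subgroup.index_ne_zero_of_finite
  obtain ⟨J, hJ, hJL⟩ := hA R L hL
  obtain ⟨r, hr, hr0⟩ := exists_ne_of_finite J hJ
  have hst : ∀ (i j : Fin 3) (h : i ≠ j) (y : XX (V3 R)), w.1 (pb (ee h r) y) = w.1 y := by
    intro i j h y
    have h6 : phi (Mp p) (inv_Mp p hp) (ee h r) w = w := hJL i j h r hr
    have h7 := congrArg (fun m : Mp p => m.1 y) h6
    exact h7
  have h8 : ∀ Q : Quad (V3 R), w.1 (0, Q) = 1 := by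
    refine hD1 R h2R p w.1 w.2 ?_
    intro i j l m hij hlm _ _
    refine ⟨r, r, hr0, hr0, ?_⟩
    intro Q
    rw [pb_mul, hst, hst, hst]
  obtain ⟨b, hb⟩ := hD2 (V3 R) (V3_two' h2R) p w.1 w.2 h8
  have h9 : ∀ (i j : Fin 3) (h : i ≠ j), (ee h r : Lam R) • b = b := by
    intro i j h
    apply gg_injective (V3_two' h2R)
    funext y
    have h10 := hst i j h y
    rw [hb] at h10
    exact h10
  have hb0 : b = 0 := by
    funext j
    obtain ⟨i, hij⟩ : ∃ i : Fin 3, i ≠ j := by
      revert j; decide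
    have h11 := h9 i j hij
    rw [ee_smul] at h11
    have h12 : (Pi.single i (r * b j) : V3 R) = 0 := by
      have := congrArg (fun z => z - b) h11
      simpa using this
    have h13 := congrFun h12 i
    rw [Pi.single_eq_same] at h13
    rcases mul_eq_zero.1 h13 with h14 | h14
    · exact absurd h14 hr0
    · exact h14
  rw [h2]
  have hw1 : w = 1 := by
    apply Subtype.ext
    rw [hb, hb0, gg_zero]; rfl
  rw [hw1, map_one]

end Pool.Agent.H193.RF
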