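import Mathlib
import Pool.Agent.H193.RF.Stm

/-!
# The groups `Gr k n` are pairwise not commensurable
-/

set_option autoImplicit false
set_option linter.unusedSectionVars false

namespace Pool.Agent.H193.RF

open Pool.Agent.H197R3 (XX Quad gg GG Inv' phi pb pb_mul vv gg_injective)
open Pool.Agent.H258.CR
open Pool.Agent.Y276.Rig (IsIcc)
open SemidirectProduct Polynomial

section defs
variable (k : Type) [Field k]

/-- the ring `k[X][Y]` -/
abbrev RR := Polynomial (Polynomial k)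

/-- multiplication by `Y ^ n` -/
noncomputable def pY (n : ℕ) : V3 (RR k) →+ V3 (RR k) where
  toFun a := (X : RR k) ^ n • a
  map_zero' := smul_zero _
  map_add' a b := smul_add _ a b

variable {k}

lemma pY_apply (n : ℕ) (a : V3 (RR k)) : pY k n a = (X : RR k) ^ n • a := rfl

lemma lam_smul (g : Lam (RR k)) (c : RR k) (a : V3 (RR k)) : g • (c • a) = c • (g • a) := by
  show ((g : (Matrix (Fin 3) (Fin 3) (RR k))ˣ) : Matrix (Fin 3) (Fin 3) (RR k)) • (c • a) =
    c • (((g : (Matrix (Fin 3) (Fin 3) (RR k))ˣ) : Matrix (Fin 3) (Fin 3) (RR k)) • a)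
  rw [Matrix.smul_eq_mulVec, Matrix.smul_eq_mulVec, Matrix.mulVec_smul]

lemma pY_smul (n : ℕ) (g : Lam (RR k)) (a : V3 (RR k)) : pY k n (g • a) = g • pY k n a :=
  (lam_smul g _ a).symm

variable (k) in
/-- the groups -/
abbrev Gr (n : ℕ) := Gp (pY k n) (pY_smul n)

end defs

section gen
variable {R : Type} [CommRing R] (p q : V3 R →+ V3 R)
  (hp : ∀ (g : Lam R) (a : V3 R), p (g • a) = g • p a)
  (hq : ∀ (g : Lam R) (a : V3 R), q (g • a) = g • q a)

lemma lift_ee (hA : S_A) (H : Subgroup (Gp p hp)) (hH : H.index ≠ 0) :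
    ∃ J : Ideal R, Finite (R ⧸ J) ∧ ∀ (i j : Fin 3) (h : i ≠ j) (r : R), r ∈ J →
      ∃ y : H, y.1.right = ee h r := by
  have h1 : (H.map (rightHom : Gp p hp →* Lam R)).index ≠ 0 := by
    intro h0
    have := Subgroup.index_map_dvd H (rightHom_surjective : Function.Surjective
      (rightHom : Gp p hp →* Lam R))
    rw [h0] at this
    exact hH (Nat.eq_zero_of_zero_dvd this)
  obtain ⟨J, hJ, hJL⟩ := hA R _ h1
  refine ⟨J, hJ, fun i j h r hr => ?_⟩
  obtain ⟨y, hy, hy'⟩ := hJL i j h r hr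
  exact ⟨⟨y, hy⟩, hy'⟩

lemma right_one (hA : S_A) (hC : S_C) [IsDomain R] [Infinite R] (h2R : ∀ r : R, r + r = 0)
    (hu : ∀ u : R, u ^ 3 = 1 → u = 1) (H : Subgroup (Gp p hp))
    (H' : Subgroup (Gp q hq)) (hH' : H'.index ≠ 0) (e : H ≃* H') (x : H) (hx : x.1.right = 1) :
    (e x).1.right = 1 := by
  let f : H →* Lam R := (rightHom : Gp q hq →* Lam R).comp (H'.subtype.comp e.toMonoidHom)
  let K : Subgroup H := ((rightHom : Gp p hp →* Lam R).comp H.subtype).ker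
  have hf : ∀ z : H, f z = (e z).1.right := fun z => rfl
  have hKx : ∀ z : H, z ∈ K ↔ z.1.right = 1 := fun z => Iff.rfl
  obtain ⟨J, hJ, hJL⟩ := lift_ee q hq hA H' hH'
  refine hC R h2R hu J hJ (K.map f) ?_ ?_ _ ⟨x, hx, rfl⟩
  · rintro i j h r hr _ ⟨z, hz, rfl⟩
    obtain ⟨y, hy⟩ := hJL i j h r hr
    refine ⟨e.symm y * z * (e.symm y)⁻¹, ?_, ?_⟩
    · exact (MonoidHom.normal_ker _).conj_mem z hz _
    · rw [map_mul, map_mul, map_inv, hf (e.symm y), MulEquiv.apply_symm_apply, hy]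
  · rintro _ ⟨z, hz, rfl⟩ _ ⟨z', hz', rfl⟩
    rw [← map_mul, ← map_mul]
    congr 1
    apply Subtype.ext
    show z.1 * z'.1 = z'.1 * z.1
    rw [eq_inl p hp z.1 hz, eq_inl p hp z'.1 hz', ← map_mul, ← map_mul, mul_comm]

/-- the vectors `c` such that `gg c` lies in `H` and `gg (p c)` is a square in `H ∩ M` -/
noncomputable def CC (h2R : ∀ r : R, r + r = 0) (H : Subgroup (Gp p hp)) :
    AddSubgroup (V3 R) where
  carrier := {c | (inl (gP p c) : Gp p hp) ∈ H ∧
    ∃ m : Mp p, (inl m : Gp p hp) ∈ H ∧ m * m = gP p (p c)}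
  zero_mem' := ⟨by rw [gP_zero, map_one]; exact one_mem _, 1, by rw [map_one]; exact one_mem _,
    by rw [map_zero, gP_zero, one_mul]⟩
  add_mem' := by
    rintro c d ⟨hc, m, hm, hmc⟩ ⟨hd, m', hm', hmd⟩
    refine ⟨by rw [gP_add, map_mul]; exact mul_mem hc hd, m * m',
      by rw [map_mul]; exact mul_mem hm hm', ?_⟩
    rw [mul_mul_mul_comm, hmc, hmd, map_add, gP_add]
  neg_mem' := by
    rintro c ⟨hc, m, hm, hmc⟩
    refine ⟨by rw [gP_neg, map_inv]; exact inv_mem hc, m, hm, ?_⟩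
    rw [hmc, map_neg]
    congr 1
    rw [neg_eq_of_add_eq_zero_left (V3_two h2R _)]

lemma CC_index (h2R : ∀ r : R, r + r = 0) (H : Subgroup (Gp p hp)) (hH : H.index ≠ 0) :
    (CC p hp h2R H).index ≠ 0 := by
  have hfi : H.FiniteIndex := ⟨hH⟩
  have hfin : Finite (Gp p hp ⧸ H) := Subgroup.finite_quotient_of_finiteIndex
  have : Finite (V3 R ⧸ CC p hp h2R H) := by
    refine Finite.of_injective (fun c : V3 R ⧸ CC p hp h2R H =>
      ((QuotientGroup.mk (inl (gP p c.out)) : Gp p hp ⧸ H),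
        (QuotientGroup.mk (inl (uP p c.out)) : Gp p hp ⧸ H))) ?_
    intro c d hcd
    have h1 := (Prod.ext_iff.1 hcd).1
    have h2 := (Prod.ext_iff.1 hcd).2
    simp only at h1 h2
    rw [QuotientGroup.eq] at h1 h2
    rw [← QuotientAddGroup.out_eq' c, ← QuotientAddGroup.out_eq' d, QuotientAddGroup.eq]
    refine ⟨?_, (uP p c.out)⁻¹ * uP p d.out, ?_, ?_⟩
    · rwa [gP_add, gP_neg, map_mul, map_inv]
    · rwa [map_mul, map_inv]
    · rw [mul_mul_mul_comm, ← mul_inv, uP_sq, uP_sq, ← gP_neg, ← gP_add, map_add, map_neg]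
  exact AddSubgroup.index_ne_zero_of_finite

lemma CC_smul (h2R : ∀ r : R, r + r = 0) (H : Subgroup (Gp p hp)) (y : Gp p hp) (hy : y ∈ H)
    (c : V3 R) (hc : c ∈ CC p hp h2R H) : y.right • c ∈ CC p hp h2R H := by
  obtain ⟨hc, m, hm, hmc⟩ := hc
  refine ⟨?_, phi (Mp p) (inv_Mp p hp) y.right m, ?_, ?_⟩
  · rw [← gP_phi p hp, ← conj_inl]
    exact mul_mem (mul_mem hy hc) (inv_mem hy)
  · rw [← conj_inl]
    exact mul_mem (mul_mem hy hm) (inv_mem hy)
  · rw [← map_mul, hmc, gP_phi p hp, hp]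

end gen

/-- the groups are finitely generated -/
def S_FG : Prop := ∀ (k : Type) [Field k] [Finite k], (∀ r : k, r + r = 0) →
  ∀ n : ℕ, Group.FG (Gr k n)

end Pool.Agent.H193.RF
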