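import Mathlib
import Pool.Agent.H193.RF.NV
import Pool.Agent.H193.RF.Icc

/-!
# The groups `Gr k n` are pairwise not commensurable: elements `gg c` go to elements `gg d`
-/

set_option autoImplicit false
set_option linter.unusedSectionVars false

namespace Pool.Agent.H193.RF

open Pool.Agent.H197R3 (XX Quad gg GG Inv' phi pb pb_mul vv gg_injective)
open Pool.Agent.H258.CR
open Pool.Agent.Y276.Rig (IsIcc)
open SemidirectProduct Polynomial

section gen
variable {R : Type} [CommRing R] (p : V3 R →+ V3 R)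
  (hp : ∀ (g : Lam R) (a : V3 R), p (g • a) = g • p a)

/-- second difference in a group -/
def comb {G : Type} [Group G] (a b x : G) : G :=
  (a * b) * x * (a * b)⁻¹ * (a * x * a⁻¹)⁻¹ * (b * x * b⁻¹)⁻¹ * x

lemma comb_map {G G' : Type} [Group G] [Group G'] (f : G →* G') (a b x : G) :
    f (comb a b x) = comb (f a) (f b) (f x) := by
  simp only [comb, map_mul, map_inv]

lemma comb_inl (a b : Gp p hp) (v : Mp p) : comb a b (inl v : Gp p hp) =
    inl (phi (Mp p) (inv_Mp p hp) (a.right * b.right) v *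
      (phi (Mp p) (inv_Mp p hp) a.right v)⁻¹ * (phi (Mp p) (inv_Mp p hp) b.right v)⁻¹ * v) := by
  unfold comb
  rw [conj_inl, conj_inl, conj_inl, ← map_inv (inl : Mp p →* Gp p hp),
    ← map_inv (inl : Mp p →* Gp p hp), ← map_mul (inl : Mp p →* Gp p hp),
    ← map_mul (inl : Mp p →* Gp p hp), ← map_mul (inl : Mp p →* Gp p hp), mul_right]

/-- second difference of vectors -/
def cmb (g h : Lam R) (c : V3 R) : V3 R := (g * h) • c + -(g • c) + -(h • c) + c

lemma comb_gP (a b : Gp p hp) (c : V3 R) : comb a b (inl (gP p c) : Gp p hp) =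
    inl (gP p (cmb a.right b.right c)) := by
  rw [comb_inl, gP_phi p hp, gP_phi p hp, gP_phi p hp, ← gP_neg, ← gP_neg, ← gP_add, ← gP_add,
    ← gP_add]
  rfl

lemma cmb_p (g h : Lam R) (c : V3 R) : p (cmb g h c) = cmb g h (p c) ↔
    p (cmb g h c) = cmb g h (p c) := Iff.rfl

include hp in
lemma cmb_map (g h : Lam R) (c : V3 R) : p (cmb g h c) = cmb g h (p c) := by
  unfold cmb
  rw [map_add, map_add, map_add, map_neg, map_neg, hp, hp, hp]

lemma cmb_ee {i j a b : Fin 3} (hij : i ≠ j) (hab : a ≠ b) (hja : j ≠ a) (r s : R) (d : V3 R) :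
    cmb (ee hij r) (ee hab s) d = 0 := by
  unfold cmb
  rw [mul_smul, ee_smul, ee_smul, ee_smul]
  have h1 : (d + Pi.single a (s * d b) : V3 R) j = d j := by
    rw [Pi.add_apply, Pi.single_eq_of_ne hja, add_zero]
  rw [h1]
  abel

lemma comb_left (a b : Gp p hp) (v : Mp p) (h : comb a b (inl v : Gp p hp) = 1) :
    SD a.right b.right v.1 := by
  rw [comb_inl] at h
  have h1 := inl_injective (h.trans (map_one _).symm)
  intro Q
  have h2 := congrArg (fun m : Mp p => m.1 (0, Q)) h1
  have h3 : v.1 (pb (a.right * b.right) (0, Q)) * (v.1 (pb a.right (0, Q)))⁻¹ *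
      (v.1 (pb b.right (0, Q)))⁻¹ * v.1 (0, Q) = 1 := h2
  have h4 : ∀ A B C D : Circle, A * B⁻¹ * C⁻¹ * D = 1 → A * D = B * C := by
    intro A B C D h
    have h5 : A * B⁻¹ * C⁻¹ * D = (A * D) * (B * C)⁻¹ := by
      rw [mul_inv, mul_right_comm A B⁻¹ C⁻¹, mul_assoc A, mul_assoc A, mul_assoc A, mul_comm _ D,
        mul_comm C⁻¹ B⁻¹]
    rw [h5] at h
    exact mul_inv_eq_one.1 h
  exact h4 _ _ _ _ h3

end gen

section main
variable {k : Type} [Field k]

lemma pY_inj (n : ℕ) {c : V3 (RR k)} (h : pY k n c = 0) : c = 0 := by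
  funext i
  have h1 := congrFun h i
  rw [pY_apply, Pi.smul_apply, smul_eq_mul, Pi.zero_apply] at h1
  rcases mul_eq_zero.1 h1 with h2 | h2
  · exact absurd h2 (pow_ne_zero _ X_ne_zero)
  · exact h2

lemma gP_eq_one (h2R : ∀ r : RR k, r + r = 0) {p : V3 (RR k) →+ V3 (RR k)} {c : V3 (RR k)}
    (h : gP p c = 1) : c = 0 :=
  gP_inj p (V3_two' h2R) (h.trans (gP_zero p).symm)

theorem image_gP (hA : S_A) (hC : S_C) (hD1 : S_D1) (hD2 : S_D2)
    (h2R : ∀ r : RR k, r + r = 0) (hu : ∀ u : RR k, u ^ 3 = 1 → u = 1) {n m : ℕ}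
    {H : Subgroup (Gr k n)} {H' : Subgroup (Gr k m)} (hH' : H'.index ≠ 0) (e : H ≃* H')
    (c : V3 (RR k)) (hc : c ∈ CC (pY k n) (pY_smul n) h2R H) (x : H)
    (hx : x.1 = inl (gP _ c)) : ∃ d, (e x).1 = inl (gP _ d) := by
  obtain ⟨hc1, q, hq, hqc⟩ := hc
  obtain ⟨J, hJ, hJL⟩ := lift_ee (pY k m) (pY_smul m) hA H' hH'
  obtain ⟨r, hr, hr0⟩ := exists_ne_of_finite J hJ
  have hr1 : ∀ z : H, z.1.right = 1 → (e z).1.right = 1 := fun z hz =>
    right_one (pY k n) (pY k m) (pY_smul n) (pY_smul m) hA hC h2R hu H H' hH' e z hz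
  have hex : (e x).1 = inl (e x).1.left := eq_inl _ _ _ (hr1 x (by rw [hx]; rfl))
  set y : H := ⟨inl q, hq⟩ with hy
  have hey : (e y).1 = inl (e y).1.left := eq_inl _ _ _ (hr1 y rfl)
  obtain ⟨d0, hd0⟩ := sq_Mp (pY k m) (e y).1.left
  set z : H := y * y with hz
  have hz1 : z.1 = inl (gP _ (pY k n c)) := by
    rw [← hqc, map_mul]; rfl
  have hez : (e z).1 = inl (gP _ (pY k m d0)) := by
    rw [hz, map_mul, Subgroup.coe_mul, hey, ← map_mul, hd0]
  have hSD : ∀ Q, (e x).1.left.1 (0, Q) = 1 := by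
    refine hD1 _ h2R (pY k m) _ (e x).1.left.2 ?_
    intro i j a b hij hab hja _
    refine ⟨r, r, hr0, hr0, ?_⟩
    obtain ⟨U, hU⟩ := hJL i j hij r hr
    obtain ⟨U', hU'⟩ := hJL a b hab r hr
    rw [← hU, ← hU']
    apply comb_left (pY k m) (pY_smul m)
    rw [← hex]
    -- the second difference of `z` is trivial
    have h1 : (comb U U' (e z) : H') = 1 := by
      apply Subtype.ext
      have h2 : (comb U U' (e z)).1 = comb U.1 U'.1 (e z).1 := comb_map H'.subtype U U' (e z)
      rw [h2, hez, comb_gP, hU, hU', cmb_ee hij hab hja, gP_zero, map_one]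
      rfl
    have h3 : comb (e.symm U) (e.symm U') z = 1 := by
      apply e.injective
      rw [map_one, ← h1]
      have := comb_map e.toMonoidHom (e.symm U) (e.symm U') z
      simpa using this
    have h4 : comb (e.symm U).1 (e.symm U').1 z.1 = 1 := by
      have := congrArg H.subtype h3
      rw [comb_map, map_one] at this
      exact this
    rw [hz1, comb_gP, ← cmb_map (pY k n) (pY_smul n)] at h4
    have h5 := gP_eq_one h2R (inl_injective (h4.trans (map_one _).symm))
    have h6 := pY_inj n h5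
    have h7 : comb (e.symm U).1 (e.symm U').1 x.1 = 1 := by
      rw [hx, comb_gP, h6, gP_zero, map_one]
    have h8 : comb (e.symm U) (e.symm U') x = 1 := by
      apply Subtype.ext
      have := comb_map H.subtype (e.symm U) (e.symm U') x
      exact this.trans h7
    have h9 := congrArg e h8
    have h10 : e (comb (e.symm U) (e.symm U') x) = comb U U' (e x) := by
      have := comb_map e.toMonoidHom (e.symm U) (e.symm U') x
      simpa using this
    rw [h10, map_one] at h9
    have h11 := congrArg H'.subtype h9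
    rw [comb_map, map_one] at h11
    exact h11
  obtain ⟨d, hd⟩ := hD2 _ (V3_two' h2R) (pY k m) _ (e x).1.left.2 hSD
  refine ⟨d, ?_⟩
  rw [hex]
  congr 1
  exact Subtype.ext hd

end main

end Pool.Agent.H193.RF
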