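import Mathlib
import Pool.Agent.H193.RF.NV2

/-!
# The groups `Gr k n` are pairwise not commensurable: the chain of invariant subgroups
-/

set_option autoImplicit false
set_option linter.unusedSectionVars false

namespace Pool.Agent.H193.RF

open Pool.Agent.H197R3 (XX Quad gg GG Inv' phi pb pb_mul vv gg_injective)
open Pool.Agent.H258.CR
open Pool.Agent.Y276.Rig (IsIcc)
open SemidirectProduct Polynomial

section chain
variable {k : Type} [Field k] (h2R : ∀ r : RR k, r + r = 0) {n m : ℕ}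
  {H : Subgroup (Gr k n)} {H' : Subgroup (Gr k m)} (e : H ≃* H')

/-- the invariant subgroups of the chain -/
noncomputable def DD (i : ℕ) : AddSubgroup (V3 (RR k)) where
  carrier := {d | ∃ c ∈ CC (pY k n) (pY_smul n) h2R H, (∃ a, c = pY k i a) ∧
    ∃ x : H, x.1 = inl (gP _ c) ∧ (e x).1 = inl (gP _ d)}
  zero_mem' := ⟨0, zero_mem _, ⟨0, (map_zero _).symm⟩, 1, by rw [gP_zero, map_one]; rfl,
    by rw [map_one, gP_zero, map_one]; rfl⟩
  add_mem' := by
    rintro d d' ⟨c, hc, ⟨a, ha⟩, x, hx, hex⟩ ⟨c', hc', ⟨a', ha'⟩, x', hx', hex'⟩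
    refine ⟨c + c', add_mem hc hc', ⟨a + a', by rw [ha, ha', map_add]⟩, x * x', ?_, ?_⟩
    · rw [gP_add, map_mul, ← hx, ← hx']; rfl
    · rw [gP_add, map_mul, map_mul, ← hex, ← hex']; rfl
  neg_mem' := by
    rintro d ⟨c, hc, ⟨a, ha⟩, x, hx, hex⟩
    refine ⟨-c, neg_mem hc, ⟨-a, by rw [ha, map_neg]⟩, x⁻¹, ?_, ?_⟩
    · rw [gP_neg, map_inv, ← hx]; rfl
    · rw [gP_neg, map_inv, map_inv, ← hex]; rfl

lemma DD_smul (i : ℕ) (y' : H') (d : V3 (RR k)) (hd : d ∈ DD h2R e i) :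
    y'.1.right • d ∈ DD h2R e i := by
  obtain ⟨c, hc, ⟨a, ha⟩, x, hx, hex⟩ := hd
  refine ⟨(e.symm y').1.right • c, CC_smul _ _ h2R H _ (e.symm y').2 c hc,
    ⟨(e.symm y').1.right • a, by rw [ha, pY_smul]⟩, e.symm y' * x * (e.symm y')⁻¹, ?_, ?_⟩
  · rw [Subgroup.coe_mul, Subgroup.coe_mul, Subgroup.coe_inv, hx, conj_inl,
      gP_phi _ (pY_smul n)]
  · rw [map_mul, map_mul, map_inv, MulEquiv.apply_symm_apply, Subgroup.coe_mul, Subgroup.coe_mul,
      Subgroup.coe_inv, hex, conj_inl, gP_phi _ (pY_smul m)]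

lemma DD_mono {i j : ℕ} (hij : i ≤ j) : DD h2R e j ≤ DD h2R e i := by
  rintro d ⟨c, hc, ⟨a, ha⟩, hx⟩
  refine ⟨c, hc, ⟨pY k (j - i) a, ?_⟩, hx⟩
  rw [ha, pY_apply, pY_apply, pY_apply, smul_smul, ← pow_add, Nat.add_sub_cancel' hij]

theorem DD_fin (hA : S_A) (hC : S_C) (hu : ∀ u : RR k, u ^ 3 = 1 → u = 1) (hH : H.index ≠ 0)
    (hH' : H'.index ≠ 0) : ((DD h2R e n).comap (pY k m)).index ≠ 0 := by
  intro h0
  set B := (DD h2R e n).comap (pY k m) with hB
  have hinf : Infinite (V3 (RR k) ⧸ B) := AddSubgroup.index_eq_zero_iff_infinite.1 h0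
  have hc1 := CC_index (pY k n) (pY_smul n) h2R H hH
  have hc2 := CC_index (pY k m) (pY_smul m) h2R H' hH'
  have hf1 : (CC (pY k n) (pY_smul n) h2R H).FiniteIndex := ⟨hc1⟩
  have hf2 : (CC (pY k m) (pY_smul m) h2R H').FiniteIndex := ⟨hc2⟩
  have hfin1 : Finite (V3 (RR k) ⧸ CC (pY k n) (pY_smul n) h2R H) :=
    AddSubgroup.finite_quotient_of_finiteIndex
  have hfin2 : Finite (V3 (RR k) ⧸ CC (pY k m) (pY_smul m) h2R H') :=
    AddSubgroup.finite_quotient_of_finiteIndex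
  have hr1 : ∀ z : H', z.1.right = 1 → (e.symm z).1.right = 1 := fun z hz =>
    right_one (pY k m) (pY k n) (pY_smul m) (pY_smul n) hA hC h2R hu H' H hH e.symm z hz
  obtain ⟨y, hy⟩ := Finite.exists_infinite_fiber
    (fun b : V3 (RR k) ⧸ B => (QuotientAddGroup.mk b.out : V3 (RR k) ⧸ CC (pY k m) (pY_smul m) h2R H'))
  set T := (fun b : V3 (RR k) ⧸ B =>
    (QuotientAddGroup.mk b.out : V3 (RR k) ⧸ CC (pY k m) (pY_smul m) h2R H')) ⁻¹' {y} with hT
  obtain ⟨t0, ht0⟩ : Nonempty T := Infinite.nonempty _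
  have hmem : ∀ t : T, -t0.out + t.1.out ∈ CC (pY k m) (pY_smul m) h2R H' := by
    intro t
    rw [← QuotientAddGroup.eq]
    exact (Set.mem_singleton_iff.1 ht0).trans (Set.mem_singleton_iff.1 t.2).symm
  have hex : ∀ t : T, ∃ (a : V3 (RR k)) (x : H), x.1 = inl (gP _ (pY k n a)) ∧
      (e x).1 = inl (gP _ (pY k m (-t0.out + t.1.out))) := by
    intro t
    obtain ⟨_, q, hq, hqc⟩ := hmem t
    set z : H' := ⟨inl q, hq⟩ with hz
    have hz1 : (e.symm z).1 = inl (e.symm z).1.left := eq_inl _ _ _ (hr1 z rfl)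
    obtain ⟨a, ha⟩ := sq_Mp (pY k n) (e.symm z).1.left
    refine ⟨a, e.symm z * e.symm z, ?_, ?_⟩
    · rw [Subgroup.coe_mul, hz1, ← map_mul, ha]
    · rw [map_mul, MulEquiv.apply_symm_apply, Subgroup.coe_mul, ← hqc, map_mul]
  choose a x hx1 hx2 using hex
  obtain ⟨t, s, hts, hcl⟩ := Finite.exists_ne_map_eq_of_infinite
    (fun t : T => (QuotientAddGroup.mk (pY k n (a t)) : V3 (RR k) ⧸ CC (pY k n) (pY_smul n) h2R H))
  apply hts
  apply Subtype.ext
  have h1 := QuotientAddGroup.eq.1 hcl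
  rw [← QuotientAddGroup.out_eq' t.1, ← QuotientAddGroup.out_eq' s.1, QuotientAddGroup.eq]
  show pY k m (-t.1.out + s.1.out) ∈ DD h2R e n
  refine ⟨_, h1, ⟨-a t + a s, by rw [map_add, map_neg]⟩, (x t)⁻¹ * x s, ?_, ?_⟩
  · rw [Subgroup.coe_mul, Subgroup.coe_inv, hx1, hx1, gP_add, gP_neg, map_mul, map_inv]
  · rw [map_mul, map_inv, Subgroup.coe_mul, Subgroup.coe_inv, hx2, hx2, ← map_inv, ← map_mul,
      ← gP_neg, ← gP_add]
    congr 2
    rw [← map_neg, ← map_add]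
    congr 1
    abel

/-- vectors in different classes modulo `Y` -/
noncomputable def zv (t : ℕ) : V3 (RR k) := Pi.single 0 (C (X ^ t))

lemma zv_sep (i t s : ℕ) (a : V3 (RR k)) (h : pY k i (-zv t + zv s) = pY k (i + 1) a) : t = s := by
  have h1 := congrFun h 0
  rw [pY_apply, pY_apply, Pi.smul_apply, Pi.smul_apply, Pi.add_apply, Pi.neg_apply, zv, zv,
    Pi.single_eq_same, Pi.single_eq_same, smul_eq_mul, smul_eq_mul, pow_succ, mul_assoc] at h1
  have h2 := mul_left_cancel₀ (pow_ne_zero i (X_ne_zero (R := Polynomial k))) h1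
  have h3 := congrArg (fun f : RR k => f.coeff 0) h2
  simp only [coeff_add, coeff_neg, coeff_C_zero, mul_coeff_zero, coeff_X_zero, zero_mul] at h3
  have h4 : (X : Polynomial k) ^ s = X ^ t := by
    rwa [neg_add_eq_zero, eq_comm] at h3
  have h5 := congrArg Polynomial.natDegree h4
  rw [natDegree_X_pow, natDegree_X_pow] at h5
  exact h5.symm

theorem chain [Finite k] (hA : S_A) (hC : S_C) (hD1 : S_D1) (hD2 : S_D2) (hG : S_G)
    (hu : ∀ u : RR k, u ^ 3 = 1 → u = 1) (hH : H.index ≠ 0) (hH' : H'.index ≠ 0) (i : ℕ)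
    (him : i ≤ m + 1) (hin : i ≤ n) : ∀ d ∈ DD h2R e i, ∃ a, d = pY k i a := by
  induction i with
  | zero =>
    intro d _
    exact ⟨d, by rw [pY_apply, pow_zero, one_smul]⟩
  | succ i ih =>
    have ih' := ih (by omega) (by omega)
    by_contra hnot
    obtain ⟨J, hJ, hJL⟩ := lift_ee (pY k m) (pY_smul m) hA H' hH'
    have hB := DD_fin h2R e hA hC hu hH hH'
    obtain ⟨B', hB', hBD⟩ := hG k J hJ (DD h2R e (i + 1)) ((DD h2R e n).comap (pY k m)) i m
      (by omega) hB (by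
        intro a b h r hr d hd
        obtain ⟨y', hy'⟩ := hJL a b h r hr
        rw [← hy']
        exact DD_smul h2R e _ y' d hd) (by
        intro d hd
        obtain ⟨a, ha⟩ := ih' d (DD_mono h2R e (Nat.le_succ i) hd)
        exact ⟨a, ha⟩) hnot (by
        intro b hb
        exact DD_mono h2R e hin hb)
    have hc1 := CC_index (pY k n) (pY_smul n) h2R H hH
    have hf1 : (CC (pY k n) (pY_smul n) h2R H).FiniteIndex := ⟨hc1⟩
    have hfin1 : Finite (V3 (RR k) ⧸ CC (pY k n) (pY_smul n) h2R H) :=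
      AddSubgroup.finite_quotient_of_finiteIndex
    have hf2 : B'.FiniteIndex := ⟨hB'⟩
    have hfin2 : Finite (V3 (RR k) ⧸ B') := AddSubgroup.finite_quotient_of_finiteIndex
    obtain ⟨y, hy⟩ := Finite.exists_infinite_fiber
      (fun t : ℕ => (QuotientAddGroup.mk (pY k i (zv t)) :
        V3 (RR k) ⧸ CC (pY k n) (pY_smul n) h2R H))
    set T := (fun t : ℕ => (QuotientAddGroup.mk (pY k i (zv t)) :
        V3 (RR k) ⧸ CC (pY k n) (pY_smul n) h2R H)) ⁻¹' {y} with hT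
    obtain ⟨t0, ht0⟩ : Nonempty T := Infinite.nonempty _
    have hmem : ∀ t : T, -pY k i (zv t0) + pY k i (zv t.1) ∈ CC (pY k n) (pY_smul n) h2R H := by
      intro t
      rw [← QuotientAddGroup.eq]
      exact (Set.mem_singleton_iff.1 ht0).trans (Set.mem_singleton_iff.1 t.2).symm
    have hex : ∀ t : T, ∃ (a : V3 (RR k)) (x : H),
        x.1 = inl (gP _ (-pY k i (zv t0) + pY k i (zv t.1))) ∧
        (e x).1 = inl (gP _ (pY k i a)) := by
      intro t
      obtain ⟨d, hd⟩ := image_gP hA hC hD1 hD2 h2R hu hH' e _ (hmem t) ⟨_, (hmem t).1⟩ rfl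
      obtain ⟨a, ha⟩ := ih' d ⟨_, hmem t, ⟨-zv t0 + zv t.1, by rw [map_add, map_neg]⟩, _, rfl, hd⟩
      refine ⟨a, ⟨_, (hmem t).1⟩, rfl, ?_⟩
      rw [hd, ha]
    choose a x hx1 hx2 using hex
    obtain ⟨t, s, hts, hcl⟩ := Finite.exists_ne_map_eq_of_infinite
      (fun t : T => (QuotientAddGroup.mk (a t) : V3 (RR k) ⧸ B'))
    apply hts
    apply Subtype.ext
    have h1 := QuotientAddGroup.eq.1 hcl
    obtain ⟨c, _, ⟨a', ha'⟩, z, hz1, hz2⟩ := hBD _ h1
    have h2 : (e z).1 = (e ((x t)⁻¹ * x s)).1 := by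
      rw [map_mul, map_inv, Subgroup.coe_mul, Subgroup.coe_inv, hx2, hx2, ← map_inv, ← map_mul,
        ← gP_neg, ← gP_add, hz2]
      congr 2
      show pY k i (-a t + a s) = _
      rw [map_add, map_neg]
    have h3 : z = (x t)⁻¹ * x s := e.injective (Subtype.ext h2)
    rw [h3, Subgroup.coe_mul, Subgroup.coe_inv, hx1, hx1, ← map_inv, ← map_mul, ← gP_neg,
      ← gP_add] at hz1
    have h4 := gP_inj _ (V3_two' h2R) (inl_injective hz1)
    rw [ha'] at h4
    refine zv_sep i t.1 s.1 a' ?_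
    rw [← h4, map_add, map_neg]
    abel

/-- `n ≤ m` if finite index subgroups of `Gr k n` and `Gr k m` are isomorphic -/
theorem le_of_equiv [Finite k] (hA : S_A) (hC : S_C) (hD1 : S_D1) (hD2 : S_D2) (hG : S_G)
    (h2R : ∀ r : RR k, r + r = 0)
    (hu : ∀ u : RR k, u ^ 3 = 1 → u = 1) (hH : H.index ≠ 0) (hH' : H'.index ≠ 0)
    (e : H ≃* H') : n ≤ m := by
  by_contra hlt
  have hch := chain h2R e hA hC hD1 hD2 hG hu hH hH' (m + 1) le_rfl (by omega)
  have hB := DD_fin h2R e hA hC hu hH hH'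
  have hf : ((DD h2R e n).comap (pY k m)).FiniteIndex := ⟨hB⟩
  have hfin : Finite (V3 (RR k) ⧸ (DD h2R e n).comap (pY k m)) :=
    AddSubgroup.finite_quotient_of_finiteIndex
  obtain ⟨t, s, hts, hcl⟩ := Finite.exists_ne_map_eq_of_infinite
    (fun t : ℕ => (QuotientAddGroup.mk (zv t) : V3 (RR k) ⧸ (DD h2R e n).comap (pY k m)))
  have h1 : pY k m (-zv t + zv s) ∈ DD h2R e n := QuotientAddGroup.eq.1 hcl
  obtain ⟨a, ha⟩ := hch _ (DD_mono h2R e (by omega) h1)
  exact hts (zv_sep m t s a ha)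

end chain

end Pool.Agent.H193.RF
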