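import Mathlib
import Pool.Agent.H193.RF.NV3
import Pool.Agent.H258.CR.Main

/-!
# Infinitely many residually finite groups with property (T) and the same factor: assembly
-/

set_option autoImplicit false
set_option linter.unusedSectionVars false

namespace Pool.Agent.H193.RF

open Pool.Agent.H197R3 (XX Quad gg GG Inv' phi pb pb_mul vv gg_injective)
open Pool.Agent Pool.Agent.Y276.Rig Pool.Agent.H258.CR
open SemidirectProduct Polynomial

section facts
variable {k : Type} [Field k]

lemma RR_two [CharP k 2] (r : RR k) : r + r = 0 := by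
  have : CharP (RR k) 2 := inferInstance
  exact CharTwo.add_self_eq_zero r

lemma RR_cube (hcard : Nat.card k = 8) (u : RR k) (hu : u ^ 3 = 1) : u = 1 := by
  have hunit : IsUnit u := IsUnit.of_pow_eq_one hu (by norm_num)
  obtain ⟨c, hc, rfl⟩ := Polynomial.isUnit_iff.1 hunit
  obtain ⟨a, ha, rfl⟩ := Polynomial.isUnit_iff.1 hc
  have hfin : Finite k := Nat.finite_of_card_ne_zero (by omega)
  have : Fintype k := Fintype.ofFinite k
  rw [← C_pow, ← C_pow, ← C_1, ← C_1] at hu
  have h3 : a ^ 3 = 1 := C_injective (C_injective hu)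
  have h7 : a ^ 7 = 1 := by
    have := FiniteField.pow_card_sub_one_eq_one a ha.ne_zero
    rwa [← Nat.card_eq_fintype_card, hcard] at this
  have : a = 1 := by
    calc a = a ^ 7 * ((a ^ 3) ^ 2)⁻¹ * 1 := by
          field_simp
      _ = 1 := by rw [h7, h3]; simp
  rw [this, C_1, C_1]

lemma RR_gen : Algebra.adjoin k {(C X : RR k), (X : RR k)} = (⊤ : Subalgebra k (RR k)) := by
  rw [eq_top_iff]
  intro f _
  have hC : ∀ g : Polynomial k, (C g : RR k) ∈ Algebra.adjoin k {(C X : RR k), (X : RR k)} := by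
    intro g
    induction g using Polynomial.induction_on' with
    | add p q hp hq => rw [C_add]; exact add_mem hp hq
    | monomial n a =>
      rw [← C_mul_X_pow_eq_monomial, C_mul, C_pow]
      refine mul_mem ?_ (pow_mem (Algebra.subset_adjoin (by simp)) _)
      exact Subalgebra.algebraMap_mem _ a
  induction f using Polynomial.induction_on' with
  | add p q hp hq => exact add_mem (hp trivial) (hq trivial)
  | monomial n a =>
    rw [← C_mul_X_pow_eq_monomial]
    exact mul_mem (hC a) (pow_mem (Algebra.subset_adjoin (by simp)) _)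

lemma RR_countable [Finite k] : Countable (RR k) := by
  have h1 : Countable (Polynomial k) := by
    rw [← Cardinal.mk_le_aleph0_iff]
    refine Polynomial.cardinalMk_le_max.trans (max_le ?_ le_rfl)
    exact Cardinal.mk_le_aleph0_iff.2 inferInstance
  rw [← Cardinal.mk_le_aleph0_iff]
  refine Polynomial.cardinalMk_le_max.trans (max_le ?_ le_rfl)
  exact Cardinal.mk_le_aleph0_iff.2 h1

end facts

theorem main_fg {k : Type} [Field k] [Fintype k] [CharP k 2] (hFG : S_FG)
    (hcard : Nat.card k = 8)
    (hA : S_A) (hB : S_B) (hC : S_C) (hD1 : S_D1) (hD2 : S_D2) (hF1 : S_F1) (hF2 : S_F2)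
    (hG : S_G) :
    ∃ (G : ℕ → Type) (_ : ∀ n, Group (G n)),
      (∀ n, Group.FG (G n) ∧ ResFin (G n) ∧ IsIcc (G n) ∧ PropertyT (G n)) ∧
      (∀ n m, SameGroupAlgebra (G n) (G m) ∧ SameVN (G n) (G m)) ∧
      ∀ n m, n ≠ m → ¬ VirtuallyIsomorphic (G n) (G m) := by
  have hk : 7 ≤ Fintype.card k := by
    rw [← Nat.card_eq_fintype_card, hcard]; norm_num
  have hcnt : Countable (RR k) := RR_countable
  have hu := RR_cube hcard
  have hicc : ∀ n, IsIcc (Gr k n) := fun n =>
    icc_Gp hA hB hD1 hD2 RR_two hu (pY k n) (pY_smul n)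
  refine ⟨fun n => Gr k n, fun n => inferInstance, fun n => ⟨?_, ?_, ?_, ?_⟩,
    fun n m => ?_, fun n m hnm hvi => ?_⟩
  · exact hFG k (fun r => CharTwo.add_self_eq_zero r) n
  · intro x hx
    by_cases hr : x.right = 1
    · have hxl : x = inl x.left := eq_inl _ _ x hr
      have hw : x.left ≠ 1 := by
        intro h
        apply hx
        rw [hxl, h, map_one]
      obtain ⟨H, hH, hxH⟩ := hF2 k (fun r => CharTwo.add_self_eq_zero r) (pY k n) (pY_smul n)
        x.left hw
      exact ⟨H, hH, by rw [hxl]; exact hxH⟩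
    · obtain ⟨H, hH, hxH⟩ := hF1 k x.right hr
      refine ⟨H.comap (rightHom : Gr k n →* Lam (RR k)), ?_, hxH⟩
      rw [Subgroup.index_comap_of_surjective _ rightHom_surjective]
      exact hH
  · exact hicc n
  · exact T_Gp _ _ RR_gen RR_two hk
  · let t := Twist.comp (twistP _ (pY_smul (k := k) n)) (twistP _ (pY_smul (k := k) m))
    refine ⟨⟨algEq t, algEq_trace t, ?_⟩, sameVN t⟩
    intro x y hxy h
    have h1 : y = invo x := by
      apply MonoidAlgebra.ext
      ext g
      rw [hxy, invo_coeff]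
    rw [h1, algEq_invo, invo_coeff]
  · obtain ⟨H, H', hH, hH', ⟨e⟩⟩ := vi_icc (hicc n) (hicc m) hvi
    exact hnm (le_antisymm (le_of_equiv hA hC hD1 hD2 hG RR_two hu hH hH' e)
      (le_of_equiv hA hC hD1 hD2 hG RR_two hu hH' hH e.symm))

end Pool.Agent.H193.RF
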